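import Pool.Agent.helper4.EC.Spec

set_option autoImplicit false

namespace Pool.Agent.helper4.EC

open Finset

universe u

theorem W1_cyc (d : ℕ) (hd : 3 ≤ d) (a b : Fin (d + 1)) (hab : a.val < b.val) :
    (SimpleGraph.cycleGraph (d + 1)).Adj a b ↔ b.val = a.val + 1 ∨ (a.val = 0 ∧ b.val = d) := by
  rw [SimpleGraph.cycleGraph_adj']
  have h1 : (a - b).val = d + 1 - b.val + a.val := by
    rw [Fin.sub_def]
    simp only
    apply Nat.mod_eq_of_lt
    omega
  have h2 : (b - a).val = b.val - a.val := by
    rw [Fin.sub_def]
    simp only
    have e : d + 1 - a.val + b.val = (b.val - a.val) + (d + 1) := by omega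
    rw [e, Nat.add_mod_right]
    apply Nat.mod_eq_of_lt
    omega
  rw [h1, h2]
  have := a.isLt
  have := b.isLt
  omega

theorem W1_aux {V : Type u} (G : SimpleGraph V) (hG : Chordal G) (k : ℕ) (w : ℕ → V) (hw : TW G k w) :
    ∀ d : ℕ, ∀ i j, j = i + d → 2 ≤ d → j ≤ k → w i ≠ w j ∧ ¬ G.Adj (w i) (w j) := by
  intro d
  induction d using Nat.strong_induction_on with
  | _ d ih =>
    intro i j hj hd hjk
    rcases Nat.lt_or_ge 2 d with hd3 | hd2
    · have hne : w i ≠ w j := by
        intro h
        have h1 := (ih (d - 1) (by omega) i (j - 1) (by omega) (by omega) (by omega)).2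
        have h2 := hw.1 (j - 1) (by omega)
        rw [Nat.sub_add_cancel (by omega : 1 ≤ j)] at h2
        rw [h] at h1
        exact h1 h2.symm
      refine ⟨hne, ?_⟩
      intro hadj
      have pair : ∀ a b : ℕ, a < b → b ≤ d → w (i + a) ≠ w (i + b) ∧
          (G.Adj (w (i + a)) (w (i + b)) ↔ b = a + 1 ∨ (a = 0 ∧ b = d)) := by
        intro a b hab hbd
        by_cases h1 : b = a + 1
        · have h2 := hw.1 (i + a) (by omega)
          have e : i + b = i + a + 1 := by omega
          rw [e]
          exact ⟨h2.ne, fun _ => Or.inl h1, fun _ => h2⟩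
        · by_cases h0 : a = 0 ∧ b = d
          · have e : i + b = j := by omega
            have e' : i + a = i := by omega
            rw [e, e']
            exact ⟨hne, fun _ => Or.inr h0, fun _ => hadj⟩
          · have h3 := ih (b - a) (by omega) (i + a) (i + b) (by omega) (by omega) (by omega)
            refine ⟨h3.1, fun h => absurd h h3.2, ?_⟩
            rintro (h | h)
            · exact absurd h h1
            · exact absurd h h0
      have key : ∀ a b : Fin (d + 1), a ≠ b → w (i + a.val) ≠ w (i + b.val) ∧
          (G.Adj (w (i + a.val)) (w (i + b.val)) ↔ (SimpleGraph.cycleGraph (d + 1)).Adj a b) := by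
        intro a b hab
        have hv : a.val ≠ b.val := fun h => hab (Fin.ext h)
        have ha := a.isLt
        have hb := b.isLt
        rcases Nat.lt_or_gt_of_ne hv with h | h
        · have := pair a.val b.val h (by omega)
          rw [W1_cyc d hd3 a b h]
          exact this
        · have := pair b.val a.val h (by omega)
          rw [SimpleGraph.adj_comm, SimpleGraph.adj_comm (SimpleGraph.cycleGraph (d + 1)), W1_cyc d hd3 b a h]
          exact ⟨this.1.symm, this.2⟩
      refine (hG (d + 1) (by omega)).false ⟨⟨fun t => w (i + t.val), ?_⟩, ?_⟩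
      · intro a b h
        by_contra hab
        exact (key a b hab).1 h
      · intro a b
        by_cases hab : a = b
        · subst hab
          simp
        · exact (key a b hab).2
    · have e : d = 2 := by omega
      subst e
      subst hj
      exact hw.2 i hjk

theorem W1 : W1_stmt.{u} := by
  intro V G hG k w hw i j hij hjk
  exact W1_aux G hG k w hw (j - i) i j (by omega) (by omega) hjk

end Pool.Agent.helper4.EC
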